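import Pool.Agent.P8H22.GPLift

/-!
# MP_147277_co: `ℤ/n` has a good permutation for every large `n`
-/

namespace Pool.Agent.Results.MP_147277_co.GoodPermutationsExist

open Pool.Agent.P8H22.GP

/-- `π` is good: every triple `(a, b, c)`, not all equal, with `|[a + c - 2 b]_n| ≤ 1` satisfies
`|[π a + π c - 2 π b]_n| ≥ 2`. -/
def Good (n : ℕ) (π : Equiv.Perm (ZMod n)) : Prop :=
  ∀ a b c : ZMod n, ¬ (a = b ∧ b = c) → (a + c - 2 * b).valMinAbs.natAbs ≤ 1 →
    2 ≤ (π a + π c - 2 * π b).valMinAbs.natAbs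

theorem near_int {n : ℕ} [NeZero n] (A B C : ℤ) (hA : 0 ≤ A ∧ A < n) (hB : 0 ≤ B ∧ B < n)
    (hC : 0 ≤ C ∧ C < n) (a b c : ZMod n) (ha : (A : ZMod n) = a) (hb : (B : ZMod n) = b)
    (hc : (C : ZMod n) = c) (h : (a + c - 2 * b).valMinAbs.natAbs ≤ 1) :
    ∃ u : ℤ, (u = 0 ∨ u = 1 ∨ u = -1) ∧ -1 ≤ A + C - 2 * B - u * n ∧ A + C - 2 * B - u * n ≤ 1 := by
  obtain ⟨t, ht⟩ : ∃ t, t = (a + c - 2 * b).valMinAbs := ⟨_, rfl⟩
  have h1 : ((A + C - 2 * B - t : ℤ) : ZMod n) = 0 := by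
    push_cast
    rw [ht, ZMod.coe_valMinAbs, ha, hb, hc]
    ring
  rw [ZMod.intCast_zmod_eq_zero_iff_dvd] at h1
  obtain ⟨u, hu⟩ := h1
  rw [← ht] at h
  have hn : (0 : ℤ) < n := by have := NeZero.pos n; omega
  have hu1 : u < 2 := by
    by_contra hlt
    have : (n : ℤ) * 2 ≤ n * u := mul_le_mul_of_nonneg_left (by omega) hn.le
    omega
  have hu2 : -2 < u := by
    by_contra hlt
    have : (n : ℤ) * u ≤ n * (-2) := mul_le_mul_of_nonneg_left (by omega) hn.le
    omega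
  refine ⟨u, by omega, ?_, ?_⟩
  · rw [mul_comm u]; omega
  · rw [mul_comm u]; omega

/-- Every `n ≥ 13838400000` has a good permutation of `ℤ/n`. -/
theorem result : ∀ n : ℕ, 13838400000 ≤ n → ∃ π : Equiv.Perm (ZMod n), Good n π := by
  intro n hn
  have : NeZero n := ⟨by omega⟩
  obtain ⟨σ, hσ⟩ := nice_all (n / 372) (by omega)
  obtain ⟨τ, hτ⟩ := nice_all (n / 372 + n % 372) (by omega)
  push_cast at hσ hτ
  set k : ℤ := (n : ℤ) / 372 with hk
  set r : ℤ := (n : ℤ) % 372 with hr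
  have hn' : (372 : ℤ) * k + r = n := by omega
  have hr0 : 0 ≤ r := by omega
  have hkr : 100000 * (r + 1) ≤ k := by omega
  have D : ∀ x : ℤ, 0 ≤ x → x < n → Dec2 372 k r P372 σ τ x (lift k r P372 σ τ x) := by
    intro x h0 h1
    exact lift_dec (by norm_num) coarse372 hr0 hkr hσ hτ x h0 (by omega)
  have L : ∀ x : ℤ, 0 ≤ x → x < n → 0 ≤ lift k r P372 σ τ x ∧ lift k r P372 σ τ x < n := by
    intro x h0 h1
    have := lift_lt (by norm_num) hr0 hkr (D x h0 h1)
    omega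
  have V : ∀ x : ZMod n, 0 ≤ (x.val : ℤ) ∧ (x.val : ℤ) < n := by
    intro x
    have := ZMod.val_lt x
    omega
  let F : ZMod n → ZMod n := fun x => ((lift k r P372 σ τ (x.val : ℤ) : ℤ) : ZMod n)
  have Fval : ∀ x, ((F x).val : ℤ) = lift k r P372 σ τ (x.val : ℤ) := by
    intro x
    obtain ⟨l0, l1⟩ := L _ (V x).1 (V x).2
    have h1 : ((lift k r P372 σ τ (x.val : ℤ)).toNat : ℤ) = lift k r P372 σ τ (x.val : ℤ) := by
      omega
    show (((lift k r P372 σ τ (x.val : ℤ) : ℤ) : ZMod n).val : ℤ) = _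
    rw [← h1]
    rw [Int.cast_natCast, ZMod.val_natCast, Nat.mod_eq_of_lt (by omega)]
  have Finj : Function.Injective F := by
    intro x y hxy
    have e : lift k r P372 σ τ (x.val : ℤ) = lift k r P372 σ τ (y.val : ℤ) := by
      rw [← Fval, ← Fval, hxy]
    have d1 := D _ (V x).1 (V x).2
    have d2 := D _ (V y).1 (V y).2
    rw [← e] at d2
    have := lift_inj (by norm_num) coarse372 hr0 hkr hσ hτ d1 d2
    exact ZMod.val_injective n (by exact_mod_cast this)
  refine ⟨Equiv.ofBijective F (Finite.injective_iff_bijective.1 Finj), ?_⟩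
  intro a b c hne h
  by_contra hlt
  have hlt' : (F a + F c - 2 * F b).valMinAbs.natAbs ≤ 1 := by
    simp only [Equiv.ofBijective_apply] at hlt
    omega
  have ca : ∀ x : ZMod n, (((x.val : ℤ)) : ZMod n) = x := by
    intro x
    simp
  obtain ⟨u, hu, u1, u2⟩ := near_int (a.val : ℤ) b.val c.val (V a) (V b) (V c) a b c (ca a) (ca b)
    (ca c) h
  obtain ⟨v, hv, v1, v2⟩ := near_int ((F a).val : ℤ) (F b).val (F c).val (V _) (V _) (V _)
    (F a) (F b) (F c) (ca _) (ca _) (ca _) hlt'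
  rw [Fval, Fval, Fval] at v1 v2
  have G := lift_good (by norm_num) coarse372 hr0 hkr hσ hτ (D _ (V a).1 (V a).2)
    (D _ (V b).1 (V b).2) (D _ (V c).1 (V c).2) hu hv (by rw [hn']; exact u1)
    (by rw [hn']; exact u2) (by rw [hn']; exact v1) (by rw [hn']; exact v2)
  apply hne
  constructor
  · exact ZMod.val_injective n (by exact_mod_cast G.1)
  · exact ZMod.val_injective n (by exact_mod_cast G.2.symm)

end Pool.Agent.Results.MP_147277_co.GoodPermutationsExist
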